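import Pool.Agent.Helper47_NLO.AUP
import Pool.Agent.Helper86_NLO.ALO

/-! NLO, row ASL (helper81): merging the last copies into the leaf. -/

set_option autoImplicit false

open MeasureTheory Filter Topology

noncomputable section

namespace Pool.Agent.NL.H81

open Pool.Agent.NL Pool.Agent.NL.H47 Pool.Agent.NL.H86

section

variable {X : Type} [NormedAddCommGroup X] [NormedSpace ℝ X]
  {G : ℝ → Z} {Ψ : X →ₗᵢ[ℝ] Z} {a ε : ℝ} {W : Finset ℝ} {q : ℝ →₀ ℝ} {E : Submodule ℝ X} {N : ℕ}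
  {ϖ : ℕ → ℝ} {J φ : ℕ → ℝ → ℝ} {T : ℕ → Finset ℝ} {y : ℝ → X}

theorem T_mono' (h : Mv G Ψ a ε W q E N ϖ J φ T y) : ∀ j i, j ≤ i → i ≤ N → T j ⊆ T i := by
  intro j i hji
  induction i, hji using Nat.le_induction with
  | base => intro _; exact subset_refl _
  | succ i hji ih =>
    intro hi
    rw [h.suc i (by omega)]
    exact (ih (by omega)).trans Finset.subset_union_left

theorem gq_support (h : Mv G Ψ a ε W q E N ϖ J φ T y) {i k : ℕ} (hik : i < k) (hk : k ≤ N) :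
    (gq q φ i).support ⊆ T k := by
  classical
  refine (map_support (φ i) q).trans ?_
  refine Finset.Subset.trans ?_ (T_mono' h (i + 1) k hik hk)
  rw [h.suc i (by omega)]
  exact (Finset.image_subset_image Finset.subset_union_left).trans Finset.subset_union_right

end

/-- the supports of the combinations -/
theorem comb_support {X : Type} [NormedAddCommGroup X] [NormedSpace ℝ X] {f : ℝ → X}
    {F : ℕ → StrongDual ℝ X} {G : ℝ → Z} {Ψ : X →ₗᵢ[ℝ] Z} {a ε : ℝ} {n u : ℕ} {q : ℕ → ℝ →₀ ℝ}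
    {W : Finset ℝ} {E : Submodule ℝ X} {N : ℕ} {ϖ : ℕ → ℝ} {J φ : ℕ → ℝ → ℝ} {T : ℕ → Finset ℝ}
    {y : ℝ → X} (hS : Sit f F G Ψ a ε n u q W E N ϖ J φ T y) (c c' : ℕ → ℝ) (α : ℝ) {k i : ℕ}
    (hk : k ≤ i) (hi : i ≤ N) :
    (bo n u c q + ∑ j ∈ Finset.range k, c' j • gq (q u) φ j + α • q u).support ⊆ T i := by
  classical
  have hW : W ⊆ T i := hS.mv.WT.trans (T_mono' hS.mv 0 i (Nat.zero_le _) hi)
  refine Finsupp.support_add.trans (Finset.union_subset ?_ ?_)
  · refine Finsupp.support_add.trans (Finset.union_subset ?_ ?_)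
    · exact (bo_support hS.cfg c).trans hW
    · intro x hx
      obtain ⟨j, hj, hxj⟩ := Finset.mem_biUnion.1 (Finsupp.support_finsetSum hx)
      rw [Finset.mem_range] at hj
      exact gq_support hS.mv (lt_of_lt_of_le hj hk) hi (Finsupp.support_smul hxj)
  · exact Finsupp.support_smul.trans ((hS.cfg.sub u hS.hu).trans hW)

/-- ASL -/
theorem asl : AslStmt := by
  classical
  intro X _ _ f F G Ψ a ε n u q W E N ϖ J φ T y hS c c' k hk z hz
  obtain ⟨A, hA⟩ : ∃ A, A = ∑ i ∈ Finset.Ico k N, c' i := ⟨_, rfl⟩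
  rw [← hA]
  have hε := hS.e0
  have hpb := hS.cfg.pb u hS.hu
  have hsum : ∑ r ∈ (q u).support, q u r = 1 := hpb.2
  have hb := comb_support hS c c' A (le_refl k) hk.le
  obtain ⟨κ, hκ1, hκ2⟩ := hS.mv.lo k hk _ hb z hz
  have hgq : ∀ i, k ≤ i → i < N → |(V G (gq (q u) φ i)) κ - (V G (q u)) κ| ≤ ε := by
    intro i hki hi
    have h2 : (V G (gq (q u) φ i)) κ - (V G (q u)) κ = ∑ r ∈ (q u).support,
        q u r * ((G (φ i r)) κ - (G r) κ) := by
      unfold gq
      rw [ev_map, ev_V, ← Finset.sum_sub_distrib]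
      refine Finset.sum_congr rfl fun r _ => ?_
      ring
    rw [h2]
    refine (Finset.abs_sum_le_sum_abs _ _).trans ?_
    have h3 : ∀ r ∈ (q u).support, |q u r * ((G (φ i r)) κ - (G r) κ)| ≤ q u r * ε := by
      intro r hr
      rw [abs_mul, abs_of_nonneg (hpb.1 r)]
      exact mul_le_mul_of_nonneg_left (hκ2 i hki hi r hr) (hpb.1 r)
    refine (Finset.sum_le_sum h3).trans ?_
    rw [← Finset.sum_mul, hsum, one_mul]
  have hev : ∀ (s : Finset ℕ), (V G (∑ i ∈ s, c' i • gq (q u) φ i)) κ =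
      ∑ i ∈ s, c' i * (V G (gq (q u) φ i)) κ := by
    intro s
    rw [map_sum, BoundedContinuousFunction.sum_apply]
    refine Finset.sum_congr rfl fun i _ => ?_
    rw [map_smul]
    rfl
  have hdiff : (V G (bo n u c q + ∑ i ∈ Finset.range k, c' i • gq (q u) φ i + A • q u) - Ψ z) κ =
      (V G (bo n u c q + ∑ i ∈ Finset.range N, c' i • gq (q u) φ i) - Ψ z) κ -
        ∑ i ∈ Finset.Ico k N, c' i * ((V G (gq (q u) φ i)) κ - (V G (q u)) κ) := by
    have h1 : (V G (bo n u c q + ∑ i ∈ Finset.range k, c' i • gq (q u) φ i + A • q u) - Ψ z) κ =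
        (V G (bo n u c q)) κ + ∑ i ∈ Finset.range k, c' i * (V G (gq (q u) φ i)) κ +
          A * (V G (q u)) κ - (Ψ z) κ := by
      rw [map_add, map_add, map_smul, ← hev]
      rfl
    have h2 : (V G (bo n u c q + ∑ i ∈ Finset.range N, c' i • gq (q u) φ i) - Ψ z) κ =
        (V G (bo n u c q)) κ + ∑ i ∈ Finset.range N, c' i * (V G (gq (q u) φ i)) κ -
          (Ψ z) κ := by
      rw [map_add, ← hev]
      rfl
    rw [h1, h2, hA, Finset.sum_mul, ← Finset.sum_range_add_sum_Ico _ hk.le]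
    have h4 : ∑ i ∈ Finset.Ico k N, c' i * ((V G (gq (q u) φ i)) κ - (V G (q u)) κ) =
        ∑ i ∈ Finset.Ico k N, c' i * (V G (gq (q u) φ i)) κ -
          ∑ i ∈ Finset.Ico k N, c' i * (V G (q u)) κ := by
      rw [← Finset.sum_sub_distrib]
      refine Finset.sum_congr rfl fun i _ => ?_
      ring
    rw [h4]
    ring
  refine hκ1.trans (mul_le_mul_of_nonneg_left ?_ (by linarith))
  rw [hdiff]
  have h1 : |(V G (bo n u c q + ∑ i ∈ Finset.range N, c' i • gq (q u) φ i) - Ψ z) κ| ≤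
      ‖V G (bo n u c q + ∑ i ∈ Finset.range N, c' i • gq (q u) φ i) - Ψ z‖ := by
    rw [← Real.norm_eq_abs]
    exact BoundedContinuousFunction.norm_coe_le_norm _ κ
  have h2 : |∑ i ∈ Finset.Ico k N, c' i * ((V G (gq (q u) φ i)) κ - (V G (q u)) κ)| ≤
      ε * ∑ i ∈ Finset.range N, |c' i| := by
    refine (Finset.abs_sum_le_sum_abs _ _).trans ?_
    have h3 : ∑ i ∈ Finset.Ico k N, |c' i| ≤ ∑ i ∈ Finset.range N, |c' i| := by
      refine Finset.sum_le_sum_of_subset_of_nonneg ?_ fun _ _ _ => abs_nonneg _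
      rw [Finset.range_eq_Ico]
      exact Finset.Ico_subset_Ico (Nat.zero_le _) le_rfl
    refine le_trans ?_ (mul_le_mul_of_nonneg_left h3 hε.le)
    rw [Finset.mul_sum]
    refine Finset.sum_le_sum fun i hi => ?_
    rw [Finset.mem_Ico] at hi
    rw [abs_mul, mul_comm]
    exact mul_le_mul_of_nonneg_right (hgq i hi.1 hi.2) (abs_nonneg _)
  exact (abs_sub _ _).trans (add_le_add h1 h2)

end Pool.Agent.NL.H81
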