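import Pool.Agent.Helper81_NLO.ASL

/-! NLO, row ASU (helper81): replacement of the leaf by a later copy. -/

set_option autoImplicit false

open MeasureTheory Filter Topology

noncomputable section

namespace Pool.Agent.NL.H81

open Pool.Agent.NL Pool.Agent.NL.H47 Pool.Agent.NL.H86

theorem l1_nonneg (b : ℝ →₀ ℝ) : 0 ≤ l1 b := by
  rw [l1_eq (subset_refl b.support)]
  exact Finset.sum_nonneg fun r _ => abs_nonneg _

theorem l1_sum (s : Finset ℕ) (g : ℕ → ℝ →₀ ℝ) : l1 (∑ i ∈ s, g i) ≤ ∑ i ∈ s, l1 (g i) :=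
  Finset.le_sum_of_subadditive l1 l1_zero.le l1_add _ _

/-- ASU -/
theorem asu (akb : AkbStmt) : AsuStmt := by
  classical
  intro X _ _ f F G Ψ a ε n u q W E N ϖ J φ T y hS c c' α k i hki hi z hz
  have hc := hS.cfg
  have hmv := hS.mv
  have hu := hS.hu
  have hε := hS.e0
  have hpb := hc.pb u hu
  have hRW := hc.sub u hu
  have hN : 2 ≤ N := hmv.two
  set p := q u with hp
  set b : ℝ →₀ ℝ := bo n u c q + ∑ j ∈ Finset.range k, c' j • gq p φ j + α • p with hb
  have hbT : b.support ⊆ T i := comb_support hS c c' α hki hi.le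
  have hbR : ∀ r ∈ p.support, b r = α * p r := by
    intro r hr
    have h1 : bo n u c q r = 0 := bo_zero_in hc hu c hr
    have h2 : (∑ j ∈ Finset.range k, c' j • gq p φ j) r = 0 := by
      rw [Finsupp.finsetSum_apply]
      refine Finset.sum_eq_zero fun j hj => ?_
      rw [Finset.mem_range] at hj
      have h3 : gq p φ j r = 0 := by
        by_contra h
        obtain ⟨s, hs, hsr⟩ := Finset.mem_image.1
          (map_support (φ j) p (Finsupp.mem_support_iff.2 h))
        have h4 := hmv.new j (by omega) s (Finset.mem_union_left _ hs)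
        apply h4
        rw [hsr]
        exact T_mono' hmv 0 j (Nat.zero_le _) (by omega) (hmv.WT (hRW hr))
      rw [Finsupp.smul_apply, h3, smul_zero]
    rw [hb, Finsupp.add_apply, Finsupp.add_apply, h1, h2, Finsupp.smul_apply, smul_eq_mul]
    ring
  let t : ℝ → ℝ := fun s => if s ∈ p.support then 1 else 0
  have ht : ∀ s, 0 ≤ t s ∧ t s ≤ 1 := by
    intro s
    show 0 ≤ (if s ∈ p.support then (1 : ℝ) else 0) ∧ (if s ∈ p.support then (1 : ℝ) else 0) ≤ 1
    split_ifs <;> norm_num
  have hup := hmv.up i hi b hbT z (Submodule.mem_sup_left hz) t ht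
  have e1 : V G b + ∑ s ∈ p.support ∪ p.support.image (J i), (t s * b s) • (G (φ i s) - G s) =
      V G (bo n u c q + ∑ j ∈ Finset.range k, c' j • gq p φ j + α • gq p φ i) := by
    have h1 : ∑ s ∈ p.support ∪ p.support.image (J i), (t s * b s) • (G (φ i s) - G s) =
        ∑ s ∈ p.support, (α * p s) • (G (φ i s) - G s) := by
      rw [← Finset.sum_subset (Finset.subset_union_left :
        p.support ⊆ p.support ∪ p.support.image (J i))]
      · refine Finset.sum_congr rfl fun s hs => ?_
        have : t s = 1 := if_pos hs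
        rw [this, hbR s hs, one_mul]
      · intro s _ hs
        have : t s = 0 := if_neg hs
        rw [this, zero_mul]
        exact zero_smul _ _
    have h2 : V G (gq p φ i) = ∑ r ∈ p.support, p r • G (φ i r) := V_map G (φ i) p
    have h3 : V G p = ∑ r ∈ p.support, p r • G r := V_eq G p
    have h4 : ∑ s ∈ p.support, (α * p s) • (G (φ i s) - G s) =
        α • V G (gq p φ i) - α • V G p := by
      rw [h2, h3, Finset.smul_sum, Finset.smul_sum, ← Finset.sum_sub_distrib]
      refine Finset.sum_congr rfl fun r _ => ?_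
      rw [smul_smul, smul_smul]
      exact smul_sub _ _ _
    rw [h1, h4, hb]
    simp only [map_add, map_smul]
    abel
  rw [e1] at hup
  -- the bound of `l1`
  have f3 := (akb X f F G Ψ a ε n u q W E N ϖ J φ T y hS c (fun j => if j < k then c' j else 0)
    α z).2
  have e2 : ∑ j ∈ Finset.range N, (fun j => if j < k then c' j else 0) j • gq p φ j =
      ∑ j ∈ Finset.range k, c' j • gq p φ j := by
    have hsub : Finset.range k ⊆ Finset.range N := Finset.range_subset_range.2 (by omega)
    rw [← Finset.sum_subset hsub]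
    · refine Finset.sum_congr rfl fun j hj => ?_
      rw [Finset.mem_range] at hj
      simp only [hj, if_true]
    · intro j _ hj
      rw [Finset.mem_range] at hj
      simp only [hj, if_false, zero_smul]
  have e3 : ∑ j ∈ Finset.range N, |(fun j => if j < k then c' j else 0) j| =
      ∑ j ∈ Finset.range k, |c' j| := by
    have hsub : Finset.range k ⊆ Finset.range N := Finset.range_subset_range.2 (by omega)
    rw [← Finset.sum_subset hsub]
    · refine Finset.sum_congr rfl fun j hj => ?_
      rw [Finset.mem_range] at hj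
      simp only [hj, if_true]
    · intro j _ hj
      rw [Finset.mem_range] at hj
      simp only [hj, if_false, abs_zero]
  rw [e2, e3] at f3
  have e4 : bo n u c q + α • p + ∑ j ∈ Finset.range k, c' j • gq p φ j = b := by
    rw [hb]; abel
  rw [e4] at f3
  have hl1 : l1 b ≤ l1 (bo n u c q) + |α| + ∑ j ∈ Finset.range k, |c' j| := by
    have l1p : l1 p = 1 := l1_pb hpb
    have g1 : l1 (∑ j ∈ Finset.range k, c' j • gq p φ j) ≤ ∑ j ∈ Finset.range k, |c' j| := by
      refine (l1_sum _ _).trans (Finset.sum_le_sum fun j _ => ?_)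
      rw [l1_smul]
      have : l1 (gq p φ j) ≤ 1 := (l1_mapDomain (φ j) p).trans_eq l1p
      calc |c' j| * l1 (gq p φ j) ≤ |c' j| * 1 := mul_le_mul_of_nonneg_left this (abs_nonneg _)
        _ = |c' j| := mul_one _
    have g2 := l1_add (bo n u c q + ∑ j ∈ Finset.range k, c' j • gq p φ j) (α • p)
    have g3 := l1_add (bo n u c q) (∑ j ∈ Finset.range k, c' j • gq p φ j)
    rw [l1_smul, l1p, mul_one] at g2
    rw [hb]
    linarith
  have hNr : (2 : ℝ) ≤ N := by exact_mod_cast hN
  have hεN : ε / N ≤ ε := div_le_self hε.le (by linarith)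
  have hnn : 0 ≤ l1 b + ‖z‖ := add_nonneg (l1_nonneg b) (norm_nonneg z)
  have k2 : ε / N * (l1 b + ‖z‖) ≤ ε * ((1 + 4 * n / a) * ‖V G b - Ψ z‖) :=
    (mul_le_mul_of_nonneg_right hεN hnn).trans
      (mul_le_mul_of_nonneg_left (by linarith) hε.le)
  calc ‖V G (bo n u c q + ∑ j ∈ Finset.range k, c' j • gq p φ j + α • gq p φ i) - Ψ z‖
      ≤ ‖V G b - Ψ z‖ + ε / N * (l1 b + ‖z‖) := hup
    _ ≤ ‖V G b - Ψ z‖ + ε * ((1 + 4 * n / a) * ‖V G b - Ψ z‖) := by linarith
    _ = (1 + ε * (1 + 4 * n / a)) * ‖V G b - Ψ z‖ := by ring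

end Pool.Agent.NL.H81
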