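import Pool.Agent.NL.StmtsB

/-! NLO, row CUS (helper81): the straddle lemma. -/

set_option autoImplicit false

open MeasureTheory Filter Topology

noncomputable section

namespace Pool.Agent.NL.H81

open Pool.Agent.NL

/-- CUS -/
theorem cus : CusStmt := by
  intro X _ _ f x α t Y hf hb ht hfY
  have hd : HasDerivAt f (deriv f x) x := hf.hasDerivAt
  set d := deriv f x with hdd
  suffices h : Tendsto Y atTop (𝓝 d) from h.cauchySeq
  rw [Metric.tendsto_atTop]
  intro ε hε
  rw [hasDerivAt_iff_isLittleO] at hd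
  have h1 := hd.def (half_pos hε)
  rw [Metric.eventually_nhds_iff] at h1
  obtain ⟨r, hr, h1⟩ := h1
  have h2 := (Metric.tendsto_atTop.1 ht) r hr
  obtain ⟨n₀, hn₀⟩ := h2
  refine ⟨max n₀ 1, fun n hn => ?_⟩
  have hn0 : n₀ ≤ n := (le_max_left _ _).trans hn
  have hn1 : 1 ≤ n := (le_max_right _ _).trans hn
  obtain ⟨htn, h3, h4⟩ := hb n hn1
  have h5 := hn₀ n hn0
  rw [Real.dist_eq, sub_zero, abs_of_pos htn] at h5
  have h6 : dist (α n) x < r := by
    rw [Real.dist_eq, abs_sub_comm, abs_of_nonneg (by linarith)]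
    linarith
  have h7 : dist (α n + t n) x < r := by
    rw [Real.dist_eq, abs_of_nonneg (by linarith)]
    linarith
  have h8 := h1 h6
  have h9 := h1 h7
  rw [Real.norm_eq_abs, abs_sub_comm, abs_of_nonneg (by linarith)] at h8
  rw [Real.norm_eq_abs, abs_of_nonneg (by linarith)] at h9
  have e : t n • (Y n - d) = (f (α n + t n) - f x - (α n + t n - x) • d) -
      (f (α n) - f x - (α n - x) • d) := by
    rw [smul_sub, ← hfY n hn1]
    module
  have h10 : ‖t n • (Y n - d)‖ ≤ ε / 2 * t n := by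
    rw [e]
    refine (norm_sub_le _ _).trans ?_
    have := add_le_add h9 h8
    linarith
  rw [norm_smul, Real.norm_of_nonneg htn.le, mul_comm] at h10
  have h11 : ‖Y n - d‖ ≤ ε / 2 := le_of_mul_le_mul_right h10 htn
  rw [dist_eq_norm]
  linarith

end Pool.Agent.NL.H81
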